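import Pool.Agent.helper80.SV.Spec

/-!
# Project sv (MP_b5a345_ag), module PTH
-/

set_option autoImplicit false
set_option linter.unusedSectionVars false

namespace Pool.Agent.SV

open MvPolynomial Module

section gen
variable {ι κ : Type} [Fintype ι] [DecidableEq ι] [Fintype κ] [DecidableEq κ]

/-- the first `r` points kill `Sec c univ d'` -/
theorem PTH_genker (hGKR : GKR_stmt) (hPLY : PLY_stmt) (c : ι → κ) (d' : κ → ℕ) (r n : ℕ)
    (hrn : r ≤ n) (h0 : dmin (Phi1 c Finset.univ d') 0 r = 0) :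
    Gen (fun Z : (Fin n → ι → ℂ) × (Fin n → ι → ℂ) => ∀ g ∈ Sec c Finset.univ d',
      (∀ i : Fin r, gradL Finset.univ (Z.1 (Fin.castLE hrn i)) g = 0) → g = 0) := by
  classical
  set B : ((Fin n → ι → ℂ) × (Fin n → ι → ℂ)) → ↥(Sec c Finset.univ d') →ₗ[ℂ] (Fin r × ι → ℂ) :=
    fun Z => LinearMap.pi (fun q : Fin r × ι =>
      (LinearMap.proj q.2) ∘ₗ (Phi1 c Finset.univ d' false (Z.1 (Fin.castLE hrn q.1)))) with hB
  have hBa : ∀ Z v q, B Z v q = Phi1 c Finset.univ d' false (Z.1 (Fin.castLE hrn q.1)) v q.2 :=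
    fun Z v q => rfl
  have hcut : ∀ x : ι → ℂ, cut Finset.univ x = x := by
    intro x; funext i; simp [cut]
  have hPhi : ∀ (x : ι → ℂ) (v : ↥(Sec c Finset.univ d')), Phi1 c Finset.univ d' false x v =
      gradL Finset.univ x (v : MvPolynomial ι ℂ) := by
    intro x v
    simp [Phi1, hcut]
  have hiff : ∀ Z, finrank ℂ (LinearMap.ker (B Z)) ≤ 0 ↔ ∀ g ∈ Sec c Finset.univ d',
      (∀ i : Fin r, gradL Finset.univ (Z.1 (Fin.castLE hrn i)) g = 0) → g = 0 := by
    intro Z
    rw [Nat.le_zero, Submodule.finrank_eq_zero, LinearMap.ker_eq_bot']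
    constructor
    · intro h g hg hz
      have h1 := h ⟨g, hg⟩ (by
        funext q
        rw [hBa, hPhi, hz q.1]
        rfl)
      exact congrArg Subtype.val h1
    · intro h v hv
      apply Subtype.ext
      apply h v.1 v.2
      intro i
      funext j
      have h1 := congrFun hv (i, j)
      rw [hBa, hPhi] at h1
      exact h1
  have hgen := hGKR B (by
    intro Z₀ Z₁ v q
    exact (hPLY.2.2 c Finset.univ d') false (Z₀.1 (Fin.castLE hrn q.1)) (Z₁.1 (Fin.castLE hrn q.1)) v q.2)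
    0 (by
      obtain ⟨x, y, hxy⟩ := exists_dmin (Phi1 c Finset.univ d') 0 r
      rw [h0] at hxy
      refine ⟨(fun i => if h : i.1 < r then y ⟨i.1, h⟩ else 0, 0), ?_⟩
      rw [Nat.le_zero, Submodule.finrank_eq_zero, LinearMap.ker_eq_bot']
      intro v hv
      have h2 : v ∈ Ker (Phi1 c Finset.univ d') x y := by
        rw [mem_Ker]
        refine ⟨fun i => i.elim0, fun i => ?_⟩
        funext j
        have h1 := congrFun hv (i, j)
        rw [hBa] at h1
        have h3 : (Fin.castLE hrn i).1 < r := i.2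
        simp only [h3, dif_pos] at h1
        exact h1
      rw [Submodule.finrank_eq_zero.1 hxy] at h2
      exact (Submodule.mem_bot ℂ).1 h2)
  simpa only [hiff] using hgen

theorem PTH_gencoord (n : ℕ) (z : ι) (i : Fin n) :
    Gen (fun Z : (Fin n → ι → ℂ) × (Fin n → ι → ℂ) => Z.1 i z ≠ 0) := by
  refine ⟨⟨(fun _ _ => 1, 0), one_ne_zero⟩, ?_⟩
  intro Z₀ Z₁ h
  have h1 : PolyFun (fun t : ℂ => (Z₀ + t • (Z₁ - Z₀)).1 i z) :=
    (PolyFun.const (Z₀.1 i z)).add (PolyFun.id.mul (PolyFun.const (Z₁.1 i z - Z₀.1 i z)))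
  have h2 : (fun t : ℂ => (Z₀ + t • (Z₁ - Z₀)).1 i z) 0 ≠ 0 := by
    simpa using h
  refine (h1.finite_zeros h2).subset ?_
  intro t ht
  exact not_not.1 ht

/-- a good configuration -/
theorem PTH_config (hUG : UG_stmt) (hGAL : GAL_stmt) (hGKR : GKR_stmt) (hPLY : PLY_stmt)
    (hRST : RST_stmt) (c : ι → κ) (z : ι) (d : κ → ℕ) (r n : ℕ) (hrn : r ≤ n)
    (hk : ∃ k, k ≠ c z) (hd : ∀ k, 1 ≤ d k)
    (h0 : dmin (Phi1 c Finset.univ (low d (c z))) 0 r = 0) :
    ∃ x y : Fin n → ι → ℂ, Uniform (Phi c (Finset.univ.erase z) Finset.univ d) n x y ∧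
      ∀ f : ↥(Sec c Finset.univ d),
        (∀ i : Fin r, Phi c (Finset.univ.erase z) Finset.univ d true (x (Fin.castLE hrn i)) f = 0) →
        (¬ ∃ w : ι → ℂ, eval (cut (Finset.univ.erase z) w) (f : MvPolynomial ι ℂ) ≠ 0) → f = 0 := by
  classical
  set C : Option (Option (Fin n)) → ((Fin n → ι → ℂ) × (Fin n → ι → ℂ)) → Prop := fun o =>
    match o with
    | none => fun Z => Uniform (Phi c (Finset.univ.erase z) Finset.univ d) n Z.1 Z.2
    | some none => fun Z => ∀ g ∈ Sec c Finset.univ (low d (c z)),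
      (∀ i : Fin r, gradL Finset.univ (Z.1 (Fin.castLE hrn i)) g = 0) → g = 0
    | some (some i) => fun Z => Z.1 i z ≠ 0 with hC
  have hgen : ∀ o, Gen (C o) := by
    intro o
    match o with
    | none => exact hUG _ (hPLY.2.1 c (Finset.univ.erase z) Finset.univ d) n
    | some none => exact PTH_genker hGKR hPLY c (low d (c z)) r n hrn h0
    | some (some i) => exact PTH_gencoord n z i
  obtain ⟨⟨Z, hZ⟩, -⟩ := hGAL C hgen
  refine ⟨Z.1, Z.2, hZ none, ?_⟩
  intro f hf hv
  push Not at hv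
  obtain ⟨g', hg', hfg⟩ := (hRST c z d).1 f.1 f.2 hv
  obtain ⟨k, hkz⟩ := hk
  have h1 : g' = 0 := by
    refine hZ (some none) g' hg' ?_
    intro i
    funext j
    rw [gradL_apply, if_pos (Finset.mem_univ j)]
    refine (hRST c z (low d (c z))).2 g' hg' k hkz ?_ _ (hZ (some (some (Fin.castLE hrn i)))) ?_ j
    · unfold low
      rw [Function.update_of_ne hkz]
      exact hd k
    · intro v
      have h2 := congrFun (hf i) v
      have h3 : Phi c (Finset.univ.erase z) Finset.univ d true (Z.1 (Fin.castLE hrn i)) f v =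
          gradL Finset.univ (Z.1 (Fin.castLE hrn i)) f.1 v := by
        simp [Phi]
      rw [h3, gradL_apply, if_pos (Finset.mem_univ v)] at h2
      rw [← hfg]
      exact h2
  apply Subtype.ext
  rw [hfg, h1, mul_zero]
  rfl

theorem PTH_star (hBCA : BCA_stmt) (hZER : ZER_stmt) (hDFM : DFM_stmt) (hVIS : VIS_stmt) (hUG : UG_stmt)
    (hGAL : GAL_stmt) (hGKR : GKR_stmt) (hPLY : PLY_stmt) (hRST : RST_stmt) (c : ι → κ) (z : ι)
    (d : κ → ℕ) (r : ℕ) (hk : ∃ k, k ≠ c z) (hd : ∀ k, 1 ≤ d k)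
    (h0 : dmin (Phi1 c Finset.univ (low d (c z))) 0 r = 0) (a b : ℕ) (har : r ≤ a) :
    ((cc (Phi c (Finset.univ.erase z) Finset.univ d) (a + 1) b =
        cc (Phi c (Finset.univ.erase z) Finset.univ d) a b ∧
      cc (Phi c (Finset.univ.erase z) Finset.univ d) a (b + 1) =
        cc (Phi c (Finset.univ.erase z) Finset.univ d) a b ∧
      cc (Phi c (Finset.univ.erase z) Finset.univ d) a b <
        cc (Phi c (Finset.univ.erase z) Finset.univ d) 0 0) ∨
      cc (Phi c (Finset.univ.erase z) Finset.univ d) a b = 0) →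
    dmin (Phi c (Finset.univ.erase z) Finset.univ d) a b = 0 := by
  classical
  intro h
  set Φ := Phi c (Finset.univ.erase z) Finset.univ d with hΦ
  set n := 2 * a + 2 * b + 1 with hn
  obtain ⟨x, y, hU, hV⟩ := PTH_config hUG hGAL hGKR hPLY hRST c z d r n (by omega) hk hd h0
  set s : Fin a ↪ Fin n := Fin.castLEEmb (by omega) with hs
  set t : Fin b ↪ Fin n := Fin.castLEEmb (by omega) with ht
  have hnv : ∀ f ∈ Ker Φ (x ∘ s) (y ∘ t), ¬ ∃ w : ι → ℂ,
      eval (cut (Finset.univ.erase z) w) (f : MvPolynomial ι ℂ) ≠ 0 := by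
    rcases h with ⟨h1, h2, h3⟩ | h1
    · exact hBCA Φ (fun f : ↥(Sec c Finset.univ d) => ∃ w : ι → ℂ,
        eval (cut (Finset.univ.erase z) w) (f : MvPolynomial ι ℂ) ≠ 0)
        (hDFM c (Finset.univ.erase z) Finset.univ d (Finset.subset_univ _)).1 n a b x y hU
        (by omega) (by omega) h1 h2 h3 s t
    · refine hZER Φ (fun f : ↥(Sec c Finset.univ d) => ∃ w : ι → ℂ,
        eval (cut (Finset.univ.erase z) w) (f : MvPolynomial ι ℂ) ≠ 0) ?_ a b (x ∘ s) (y ∘ t) h1
        (hU a b s t)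
      intro f hf
      obtain ⟨k, -⟩ := hk
      obtain ⟨p, hp⟩ := hVIS c (Finset.univ.erase z) Finset.univ d ⟨k, hd k⟩ f.1 f.2 hf
      refine ⟨p, ?_⟩
      simpa [hΦ, Phi] using hp
  rw [← hU a b s t, Submodule.finrank_eq_zero, Submodule.eq_bot_iff]
  intro f hf
  apply hV f ?_ (hnv f hf)
  intro i
  exact (mem_Ker.1 hf).1 (Fin.castLE har i)

theorem PTH_Dk (c : ι → κ) (z : ι) (d : κ → ℕ) :
    Dk c (Finset.univ.erase z) d ≤ Dk c Finset.univ d := by
  unfold Dk
  apply Nat.add_le_add_left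
  apply Finset.sum_le_sum
  intro k _
  apply Nat.sub_le_sub_right
  exact Finset.card_le_card (Finset.filter_subset_filter _ (Finset.erase_subset _ _))

theorem PTH (hBCA : BCA_stmt) (hZER : ZER_stmt) (hMON : MON_stmt) (hRKB : RKB_stmt) (hRKU : RKU_stmt)
    (hRKL : RKL_stmt) (hDFM : DFM_stmt) (hVIS : VIS_stmt) (hUG : UG_stmt)
    (hGAL : GAL_stmt) (hGKR : GKR_stmt) (hPLY : PLY_stmt) (hRST : RST_stmt) : PTH_stmt := by
  classical
  intro ι κ _ _ _ _ c z d r δ hc hk hd h0 hlarge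
  set Φ := Phi c (Finset.univ.erase z) Finset.univ d with hΦ
  set D := Dk c Finset.univ d with hD
  set N := Dk c (Finset.univ.erase z) d with hN
  have hND : N ≤ D := PTH_Dk c z d
  have hN1 : 1 ≤ N := Nat.le_add_right 1 _
  have hcA : ∀ k, ∃ i ∈ Finset.univ.erase z, c i = k := by
    intro k
    obtain ⟨i, h1, h2⟩ := hc k
    exact ⟨i, Finset.mem_erase.2 ⟨h1, Finset.mem_univ _⟩, h2⟩
  have hLP : LinePoly Φ := hPLY.2.1 c (Finset.univ.erase z) Finset.univ d
  obtain ⟨b1, b2, b3, b4⟩ := hRKB Φ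
  have u1 := fun x => hRKU c (Finset.univ.erase z) Finset.univ d (Finset.subset_univ _) hcA x
  have hT : ∀ a b, dmin Φ a b ≤ dmin Φ (a + 1) b + D := b2 D (fun x => (u1 x).2.2)
  have hF : ∀ a b, dmin Φ a b ≤ dmin Φ a (b + 1) + N := b3 N (fun x => (u1 x).2.1)
  have hmon := hMON Φ hLP
  have hcc0 : cc Φ 0 0 = N := by
    obtain ⟨k, -⟩ := hk
    obtain ⟨x, -, hx⟩ := hRKL c (Finset.univ.erase z) Finset.univ d (Finset.subset_univ _) hcA ⟨k, hd k⟩
    have h1 := b4 N x hx
    have h2 := hF 0 0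
    rw [zero_add] at h2
    unfold cc
    rw [zero_add]
    omega
  have hccN : ∀ a b, cc Φ a b ≤ N := by
    have h1 : ∀ a, cc Φ a 0 ≤ N := by
      intro a
      induction a with
      | zero => rw [hcc0]
      | succ a ih => exact (hmon a 0).2.2.1.trans ih
    intro a b
    induction b with
    | zero => exact h1 a
    | succ b ih => exact (hmon a b).2.2.2.trans ih
  have hlow : ∀ a b, dmin Φ 0 0 ≤ dmin Φ a b + a * D + b * N := by
    have h1 : ∀ a, dmin Φ 0 0 ≤ dmin Φ a 0 + a * D := by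
      intro a
      induction a with
      | zero => simp
      | succ a ih =>
        have := hT a 0
        rw [Nat.succ_mul]
        omega
    intro a b
    induction b with
    | zero => have := h1 a; simpa using this
    | succ b ih =>
      have := hF a b
      rw [Nat.succ_mul]
      omega
  have hstar := PTH_star hBCA hZER hDFM hVIS hUG hGAL hGKR hPLY hRST c z d r hk hd h0
  have hdesc : ∀ m a b, r ≤ a → cc Φ a b ≤ m → cc Φ a b < N →
      ∃ i₁ i₂, i₁ + i₂ ≤ m ∧ dmin Φ (a + i₁) (b + i₂) = 0 := by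
    intro m
    induction m with
    | zero =>
      intro a b ha h1 _
      exact ⟨0, 0, le_rfl, hstar a b ha (Or.inr (Nat.le_zero.1 h1))⟩
    | succ m ih =>
      intro a b ha h1 h2
      by_cases h3 : cc Φ (a + 1) b = cc Φ a b ∧ cc Φ a (b + 1) = cc Φ a b
      · exact ⟨0, 0, Nat.zero_le _, hstar a b ha (Or.inl ⟨h3.1, h3.2, by rw [hcc0]; exact h2⟩)⟩
      · have m1 := (hmon a b).2.2.1
        have m2 := (hmon a b).2.2.2
        by_cases h4 : cc Φ (a + 1) b = cc Φ a b
        · have h5 : cc Φ a (b + 1) < cc Φ a b := lt_of_le_of_ne m2 (fun h => h3 ⟨h4, h⟩)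
          obtain ⟨i₁, i₂, h6, h7⟩ := ih a (b + 1) ha (by omega) (by omega)
          refine ⟨i₁, i₂ + 1, by omega, ?_⟩
          rw [show b + (i₂ + 1) = b + 1 + i₂ by omega]
          exact h7
        · have h5 : cc Φ (a + 1) b < cc Φ a b := lt_of_le_of_ne m1 h4
          obtain ⟨i₁, i₂, h6, h7⟩ := ih (a + 1) b (by omega) (by omega) (by omega)
          refine ⟨i₁ + 1, i₂, by omega, ?_⟩
          rw [show a + (i₁ + 1) = a + 1 + i₁ by omega]
          exact h7
  have hclaim : ∀ b, b < δ → cc Φ r b = N := by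
    intro b hb
    by_contra hne
    have h1 : cc Φ r b < N := lt_of_le_of_ne (hccN r b) hne
    obtain ⟨i₁, i₂, h2, h3⟩ := hdesc (N - 1) r b le_rfl (by omega) h1
    have h4 := hlow (r + i₁) (b + i₂)
    rw [h3, b1] at h4
    have h5 : i₂ * N ≤ i₂ * D := Nat.mul_le_mul_left _ hND
    have h6 : (i₁ + i₂) * D ≤ (N - 1) * D := Nat.mul_le_mul_right _ h2
    have h7 : (b + 1) * N ≤ δ * N := Nat.mul_le_mul_right _ hb
    rw [Nat.add_mul] at h6 h7
    rw [Nat.add_mul, Nat.add_mul] at h4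
    omega
  have hfin : ∀ b, b ≤ δ → dmin Φ r b + b * N = dmin Φ r 0 := by
    intro b
    induction b with
    | zero => intro _; simp
    | succ b ih =>
      intro hb
      have h1 := ih (by omega)
      have h2 := hclaim b (by omega)
      have h3 := (hmon r b).2.1
      unfold cc at h2
      rw [Nat.succ_mul]
      omega
  exact hfin δ le_rfl

end gen

end Pool.Agent.SV
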